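import Pool.Agent.H89.KD.Stmts
import Pool.Agent.H33.KG.BAS

/-!
# KD, module PRO: properties of the operators by density
-/

set_option autoImplicit false

open MeasureTheory Set Filter Topology
open scoped ContDiff

namespace Pool.Agent.H89.KD

open Pool.Agent.H84 Pool.Agent.H84.Sym Pool.Agent.H84.Sym.P2x Pool.Agent.H19.KL
open Pool.Agent.H73.KG Pool.Agent.H20.KH

section PRO

variable {E : Type} [NormedAddCommGroup E] [InnerProductSpace ℝ E]
    [FiniteDimensional ℝ E] [MeasurableSpace E] [BorelSpace E]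

/-- density of the classes of the functions `-L u + c` -/
theorem PRO_dense (hDNS : DNSStmt E) {U : E → ℝ} {t : ℝ} (hU : PP U t) {ι : Type} [Fintype ι]
    (b : OrthonormalBasis ι ℝ E) :
    DenseRange (fun y : {y : (E → ℝ) × ℝ // Tst y.1} => tL U (XU b U y.1.1 y.1.2)) := by
  rw [Metric.denseRange_iff]
  intro h r hr
  obtain ⟨u, c, hu, hle⟩ := hDNS U t hU ι b h (r / 2) (by linarith)
  refine ⟨⟨(u, c), hu⟩, ?_⟩
  rw [dist_eq_norm]
  exact lt_of_le_of_lt hle (by linarith)

theorem PRO_tst_zero : Tst (fun _ : E => (0 : ℝ)) :=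
  ⟨contDiff_const, HasCompactSupport.zero⟩

theorem PRO_tst_c1 {f : E → ℝ} (h : Tst f) : ContDiff ℝ 1 f :=
  h.1.of_le (by exact_mod_cast le_top)

theorem PRO_XU_zero {ι : Type} [Fintype ι] (b : OrthonormalBasis ι ℝ E) (U : E → ℝ) (c : ℝ) :
    XU b U (fun _ => (0 : ℝ)) c = fun _ => c := by
  funext x
  have h0 : ∀ e : E, D e (fun _ : E => (0 : ℝ)) = fun _ => 0 := by
    intro e
    funext y
    simp [D]
  unfold XU LO
  simp only [h0]
  simp

end PRO

/-- PRO: properties of the operators (by density) -/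
theorem pro_thm (E : Type) [NormedAddCommGroup E] [InnerProductSpace ℝ E]
    [FiniteDimensional ℝ E] [MeasurableSpace E] [BorelSpace E] (hMEM : MEMStmt E)
    (hTSF : TSFStmt E) (hBOC : BOCStmt E) (hGRE : GREStmt E) (hDNS : DNSStmt E) : PROStmt E := by
  intro U t hU ι _ b T B hT hB
  obtain ⟨⟨C, hP⟩, hpr⟩ := hU
  have hU : PP U t := ⟨⟨C, hP⟩, hpr⟩
  obtain ⟨m1, m2, m3, m4, m5, m6⟩ := hMEM U t hU
  obtain ⟨t1, t2, t3⟩ := hTSF U t hU ι b
  obtain ⟨g1, g2, g3⟩ := hGRE U t hU ι b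
  have hd := PRO_dense hDNS hU b
  have hc1 : GC (fun _ : E => (1 : ℝ)) := GC.const 1
  have hT1 : ∀ j, T j (tL U (fun _ => (1 : ℝ))) = 0 := by
    intro j
    have h := hT j (fun _ => 0) PRO_tst_zero 1
    rw [PRO_XU_zero] at h
    rw [h]
    have h0 : D (b j) (fun _ : E => (0 : ℝ)) = fun _ => (0 : ℝ) * (1 : ℝ) := by
      funext y
      simp [D]
    rw [h0, m3 0 (fun _ => (1 : ℝ)) hc1, zero_smul]
  refine ⟨?_, ?_, ?_, ?_⟩
  · intro i j h
    refine isClosed_property hd (isClosed_eq (B i j).continuous (B j i).continuous) ?_ h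
    rintro ⟨⟨u, c⟩, hu⟩
    show B i j (tL U (XU b U u c)) = B j i (tL U (XU b U u c))
    rw [hB i j u hu c, hB j i u hu c, (t1 u hu).2.2.2.2 i j]
  · intro h
    refine hd.induction_on (p := fun h => (∑ i, ∑ j, ‖B j i h‖ ^ 2) +
      t * (∑ i, ‖T i h‖ ^ 2) ≤ ‖h‖ ^ 2) h (isClosed_le (by fun_prop) (by fun_prop)) ?_
    rintro ⟨⟨u, c⟩, hu⟩
    show (∑ i, ∑ j, ‖B j i (tL U (XU b U u c))‖ ^ 2) + t * (∑ i, ‖T i (tL U (XU b U u c))‖ ^ 2) ≤
      ‖tL U (XU b U u c)‖ ^ 2
    have hu' : Tst u := hu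
    obtain ⟨a1, a2, a3, a4, a5⟩ := t1 u hu'
    have e1 : ∀ i j, ‖B j i (tL U (XU b U u c))‖ ^ 2 =
        ∫ x, (D (b j) (D (b i) u) x) ^ 2 ∂(mu U) := by
      intro i j
      rw [hB j i u hu' c, m5 _ ((t1 _ (a4 (b i)).1).2.2.2.1 (b j)).2]
    have e2 : ∀ i, ‖T i (tL U (XU b U u c))‖ ^ 2 = ∫ x, (D (b i) u x) ^ 2 ∂(mu U) := by
      intro i
      rw [hT i u hu' c, m5 _ (a4 (b i)).2]
    simp only [e1, e2]
    rw [m5 _ (a3 c)]
    exact hBOC U t hU ι b u hu' c
  · -- the duality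
    intro i h g hg
    have key : ∀ h g : Lp ℝ 2 (mu U), (inner ℝ (T i h) g : ℝ) -
        inner ℝ (tL U (fun _ => (1:ℝ))) g * inner ℝ (T i h) (tL U (fun _ => (1:ℝ))) =
        ∑ j, (inner ℝ (B j i h) (T j g) : ℝ) := by
      intro h g
      refine hd.induction_on (p := fun h => (inner ℝ (T i h) g : ℝ) -
        inner ℝ (tL U (fun _ => (1:ℝ))) g * inner ℝ (T i h) (tL U (fun _ => (1:ℝ))) =
        ∑ j, (inner ℝ (B j i h) (T j g) : ℝ)) h (isClosed_eq (by fun_prop) (by fun_prop)) ?_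
      rintro ⟨⟨u, c⟩, hu⟩
      refine hd.induction_on (p := fun g => (inner ℝ (T i (tL U (XU b U u c))) g : ℝ) -
        inner ℝ (tL U (fun _ => (1:ℝ))) g *
          inner ℝ (T i (tL U (XU b U u c))) (tL U (fun _ => (1:ℝ))) =
        ∑ j, (inner ℝ (B j i (tL U (XU b U u c))) (T j g) : ℝ)) g
        (isClosed_eq (by fun_prop) (by fun_prop)) ?_
      rintro ⟨⟨w, c'⟩, hw⟩
      have hu' : Tst u := hu
      have hw' : Tst w := hw
      show (inner ℝ (T i (tL U (XU b U u c))) (tL U (XU b U w c')) : ℝ) -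
        inner ℝ (tL U (fun _ => (1:ℝ))) (tL U (XU b U w c')) *
          inner ℝ (T i (tL U (XU b U u c))) (tL U (fun _ => (1:ℝ))) =
        ∑ j, (inner ℝ (B j i (tL U (XU b U u c))) (T j (tL U (XU b U w c'))) : ℝ)
      obtain ⟨a1, a2, a3, a4, a5⟩ := t1 u hu'
      obtain ⟨b1, b2, b3, b4, b5⟩ := t1 w hw'
      have hDu := a4 (b i)
      rw [hT i u hu' c, m4 _ _ hDu.2 (b3 c'), m4 _ _ hc1 (b3 c'), m4 _ _ hDu.2 hc1]
      have s1 : ∀ j, (inner ℝ (B j i (tL U (XU b U u c))) (T j (tL U (XU b U w c'))) : ℝ) =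
          ∫ x, D (b j) (D (b i) u) x * D (b j) w x ∂(mu U) := by
        intro j
        rw [hB j i u hu' c, hT j w hw' c',
          m4 _ _ ((t1 _ hDu.1).2.2.2.1 (b j)).2 (b4 (b j)).2]
      rw [Finset.sum_congr rfl (fun j _ => s1 j), ← g2 _ _ (PRO_tst_c1 hDu.1) hDu.1.2 hw']
      have i1 : Integrable (fun x => D (b i) u x * (-LO b U w x)) (mu U) :=
        GC.integrable (GC.mul hDu.2 (GC.neg b2)) hP
      have i2 : Integrable (fun x => c' * D (b i) u x) (mu U) :=
        (GC.integrable hDu.2 hP).const_mul c'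
      have i3 : Integrable (fun x => -LO b U w x) (mu U) := GC.integrable (GC.neg b2) hP
      have r1 : ∫ x, D (b i) u x * XU b U w c' x ∂(mu U) =
          (∫ x, D (b i) u x * (-LO b U w x) ∂(mu U)) + c' * ∫ x, D (b i) u x ∂(mu U) := by
        rw [← integral_const_mul, ← integral_add i1 i2]
        refine integral_congr_ae (Filter.Eventually.of_forall fun x => ?_)
        show D (b i) u x * (-LO b U w x + c') = D (b i) u x * (-LO b U w x) + c' * D (b i) u x
        ring
      have r2 : ∫ x, (1:ℝ) * XU b U w c' x ∂(mu U) = c' := by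
        have : ∫ x, (1:ℝ) * XU b U w c' x ∂(mu U) =
            (∫ x, -LO b U w x ∂(mu U)) + ∫ x, c' ∂(mu U) := by
          rw [← integral_add i3 (integrable_const c')]
          refine integral_congr_ae (Filter.Eventually.of_forall fun x => ?_)
          show (1:ℝ) * (-LO b U w x + c') = -LO b U w x + c'
          ring
        rw [this, integral_neg, g1 w hw', integral_const, probReal_univ]
        simp
      have r3 : ∫ x, D (b i) u x * (1:ℝ) ∂(mu U) = ∫ x, D (b i) u x ∂(mu U) := by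
        simp only [mul_one]
      rw [r1, r2, r3]
      ring
    have h1 := key h g
    rw [hg, zero_mul, sub_zero] at h1
    exact h1
  · -- the mean of `T i h`
    intro i h hh
    have hli : GC (li (b i)) := BAS_li (b i)
    have key : ∀ h : Lp ℝ 2 (mu U), (inner ℝ (tL U (fun _ => (1:ℝ))) (T i h) : ℝ) =
        inner ℝ (tL U (li (b i))) h -
        inner ℝ (tL U (fun _ => (1:ℝ))) h * inner ℝ (tL U (li (b i))) (tL U (fun _ => (1:ℝ))) := by
      intro h
      refine hd.induction_on (p := fun h => (inner ℝ (tL U (fun _ => (1:ℝ))) (T i h) : ℝ) =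
        inner ℝ (tL U (li (b i))) h -
        inner ℝ (tL U (fun _ => (1:ℝ))) h * inner ℝ (tL U (li (b i))) (tL U (fun _ => (1:ℝ)))) h
        (isClosed_eq (by fun_prop) (by fun_prop)) ?_
      rintro ⟨⟨u, c⟩, hu⟩
      have hu' : Tst u := hu
      show (inner ℝ (tL U (fun _ => (1:ℝ))) (T i (tL U (XU b U u c))) : ℝ) =
        inner ℝ (tL U (li (b i))) (tL U (XU b U u c)) -
        inner ℝ (tL U (fun _ => (1:ℝ))) (tL U (XU b U u c)) *
          inner ℝ (tL U (li (b i))) (tL U (fun _ => (1:ℝ)))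
      obtain ⟨a1, a2, a3, a4, a5⟩ := t1 u hu'
      have hDu := a4 (b i)
      rw [hT i u hu' c, m4 _ _ hc1 hDu.2, m4 _ _ hli (a3 c), m4 _ _ hc1 (a3 c), m4 _ _ hli hc1]
      have i1 : Integrable (fun x => li (b i) x * (-LO b U u x)) (mu U) :=
        GC.integrable (GC.mul hli (GC.neg a2)) hP
      have i2 : Integrable (fun x => c * li (b i) x) (mu U) :=
        (GC.integrable hli hP).const_mul c
      have i3 : Integrable (fun x => -LO b U u x) (mu U) := GC.integrable (GC.neg a2) hP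
      have r1 : ∫ x, li (b i) x * XU b U u c x ∂(mu U) =
          (∫ x, li (b i) x * (-LO b U u x) ∂(mu U)) + c * ∫ x, li (b i) x ∂(mu U) := by
        rw [← integral_const_mul, ← integral_add i1 i2]
        refine integral_congr_ae (Filter.Eventually.of_forall fun x => ?_)
        show li (b i) x * (-LO b U u x + c) = li (b i) x * (-LO b U u x) + c * li (b i) x
        ring
      have r2 : ∫ x, (1:ℝ) * XU b U u c x ∂(mu U) = c := by
        have : ∫ x, (1:ℝ) * XU b U u c x ∂(mu U) =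
            (∫ x, -LO b U u x ∂(mu U)) + ∫ x, c ∂(mu U) := by
          rw [← integral_add i3 (integrable_const c)]
          refine integral_congr_ae (Filter.Eventually.of_forall fun x => ?_)
          show (1:ℝ) * (-LO b U u x + c) = -LO b U u x + c
          ring
        rw [this, integral_neg, g1 u hu', integral_const, probReal_univ]
        simp
      have r3 : ∫ x, li (b i) x * (1:ℝ) ∂(mu U) = ∫ x, li (b i) x ∂(mu U) := by
        simp only [mul_one]
      have r4 : ∫ x, (1:ℝ) * D (b i) u x ∂(mu U) = ∫ x, D (b i) u x ∂(mu U) := by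
        simp only [one_mul]
      rw [r1, r2, r3, r4, g3 (b i) u hu']
      ring
    have h1 := key h
    rw [hh, zero_mul, sub_zero] at h1
    exact h1

end Pool.Agent.H89.KD
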