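import Pool.Agent.H89.KD.Stmts
import Pool.Agent.H85.KG.RGP
import Pool.Agent.H62.KG.ZSM

/-!
# KD, module NDL: linearity of the iterated derivatives of the posterior means
-/

set_option autoImplicit false

open MeasureTheory Set Filter Topology
open scoped ContDiff

namespace Pool.Agent.H89.KD

open Pool.Agent.H84 Pool.Agent.H84.Sym Pool.Agent.H84.Sym.P2x Pool.Agent.H19.KL
open Pool.Agent.H73.KG Pool.Agent.H20.KH

section NDL

variable {E : Type} [NormedAddCommGroup E] [InnerProductSpace ℝ E]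

theorem NDL_D_smooth {F : E → ℝ} (h : ContDiff ℝ ∞ F) (v : E) : ContDiff ℝ ∞ (D v F) :=
  (h.fderiv_right (m := ∞) (by simp)).clm_apply contDiff_const

theorem NDL_smooth {F : E → ℝ} (h : ContDiff ℝ ∞ F) : ∀ l : List E, ContDiff ℝ ∞ (DL l F)
  | [] => h
  | v :: l => NDL_D_smooth (NDL_smooth h l) v

theorem NDL_diff {F : E → ℝ} (h : ContDiff ℝ ∞ F) (l : List E) : Differentiable ℝ (DL l F) :=
  (NDL_smooth h l).differentiable (by simp)

theorem NDL_DL_add {F G : E → ℝ} (hF : ContDiff ℝ ∞ F) (hG : ContDiff ℝ ∞ G) (l : List E) :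
    DL l (fun x => F x + G x) = fun x => DL l F x + DL l G x := by
  induction l with
  | nil => rfl
  | cons v l ih =>
    rw [DL_cons, ih]
    funext x
    show fderiv ℝ (fun x => DL l F x + DL l G x) x v = _
    rw [fderiv_fun_add (NDL_diff hF l x) (NDL_diff hG l x)]
    rfl

theorem NDL_DL_smul {F : E → ℝ} (hF : ContDiff ℝ ∞ F) (c : ℝ) (l : List E) :
    DL l (fun x => c * F x) = fun x => c * DL l F x := by
  induction l with
  | nil => rfl
  | cons v l ih =>
    rw [DL_cons, ih]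
    funext x
    show fderiv ℝ (fun x => c * DL l F x) x v = _
    rw [fderiv_const_mul (NDL_diff hF l x)]
    rfl

theorem NDL_DL_const (c : ℝ) (v : E) (l : List E) :
    DL (v :: l) (fun _ : E => c) = fun _ => 0 := by
  induction l generalizing v with
  | nil =>
    funext x
    show fderiv ℝ (fun _ : E => c) x v = 0
    simp
  | cons w l ih =>
    rw [DL_cons, ih w]
    funext x
    show fderiv ℝ (fun _ : E => (0:ℝ)) x v = 0
    simp

variable [FiniteDimensional ℝ E] [MeasurableSpace E] [BorelSpace E]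

theorem NDL_pm_smooth {U : E → ℝ} {t C : ℝ} (hU : Pot U t C) {F : E → ℝ} (hF : GC F) :
    ContDiff ℝ ∞ (fun θ => pm U 0 θ F) := by
  have hpos := hU.pos
  have hmem : ∀ θ : E, ((0:ℝ), θ) ∈ (Ioi (-t) ×ˢ (univ : Set E)) := fun θ =>
    ⟨show -t < 0 by linarith, mem_univ _⟩
  have hc : ContDiff ℝ ∞ (fun θ : E => ((0:ℝ), θ)) := contDiff_const.prodMk contDiff_id
  have h1 := (zsm_thm E U t C hU F hF).1.comp_contDiff hc hmem
  have h2 := (zsm_thm E U t C hU _ (GC.const 1)).1.comp_contDiff hc hmem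
  exact h1.div h2 fun θ => (Pool.Agent.H85.KG.ZF_one_pos hU le_rfl θ).ne'

theorem NDL_pm_add {U : E → ℝ} {t C : ℝ} (hU : Pot U t C) {F G : E → ℝ} (hF : GC F)
    (hG : GC G) (θ : E) : pm U 0 θ (fun x => F x + G x) = pm U 0 θ F + pm U 0 θ G := by
  unfold pm
  rw [Pool.Agent.H85.KG.ZF_add hU le_rfl θ hF hG, add_div]

theorem NDL_pm_smul {U : E → ℝ} {t C : ℝ} (hU : Pot U t C) {F : E → ℝ} (c : ℝ) (θ : E) :
    pm U 0 θ (fun x => c * F x) = c * pm U 0 θ F := by
  unfold pm
  rw [Pool.Agent.H85.KG.ZF_const_mul hU le_rfl, mul_div_assoc]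

theorem NDL_pm_const {U : E → ℝ} {t C : ℝ} (hU : Pot U t C) (c : ℝ) (θ : E) :
    pm U 0 θ (fun _ => c) = c := by
  have h := NDL_pm_smul hU (F := fun _ => 1) c θ
  simp only [mul_one] at h
  rw [h]
  unfold pm
  rw [div_self (Pool.Agent.H85.KG.ZF_one_pos hU le_rfl θ).ne', mul_one]

end NDL

/-- NDL: linearity of `ND` and the first derivative -/
theorem ndl_thm (E : Type) [NormedAddCommGroup E] [InnerProductSpace ℝ E]
    [FiniteDimensional ℝ E] [MeasurableSpace E] [BorelSpace E] (hRGP : RGPStmt E)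
    (hPWB : PWBStmt E) : NDLStmt E := by
  intro U t hPP
  obtain ⟨⟨C, hU⟩, hprob⟩ := id hPP
  refine ⟨?_, ?_, ?_, ?_⟩
  · intro f g l hf hg
    have e1 : (fun θ => pm U 0 θ (fun x => f x + g x)) = fun θ => pm U 0 θ f + pm U 0 θ g :=
      funext fun θ => NDL_pm_add hU hf hg θ
    unfold ND
    rw [e1, NDL_DL_add (NDL_pm_smooth hU hf) (NDL_pm_smooth hU hg)]
  · intro c f l hf
    have e1 : (fun θ => pm U 0 θ (fun x => c * f x)) = fun θ => c * pm U 0 θ f :=
      funext fun θ => NDL_pm_smul hU c θ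
    unfold ND
    rw [e1, NDL_DL_smul (NDL_pm_smooth hU hf)]
  · intro c l hl
    have e1 : (fun θ => pm U 0 θ (fun _ => c)) = fun _ => c :=
      funext fun θ => NDL_pm_const hU c θ
    obtain ⟨v, l, rfl⟩ := List.exists_cons_of_ne_nil hl
    unfold ND
    rw [e1, NDL_DL_const]
  · intro ψ v hψ
    have h1 := ((hRGP U t hPP ψ hψ).2.1 0 0 v le_rfl).2
    rw [(hPWB U t hPP).2.2] at h1
    exact h1

end Pool.Agent.H89.KD
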